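import Pool.Agent.Q58.FI.Main

/-!
MP_c7af3c_ag, Q1: the finite images of generic complete intersections, and of their covers, have both
properties of the question.

Let `K` be an algebraically closed field of characteristic `0`, and let `k` be a field contained in
`K`, with algebraic closure `k'` in `K`. Let `V` be a closed subset of `ℙⁿ`, defined over `k'`, of
dimension at most `m`, and let `F_a` be finitely many forms over `K` of degrees `d_a`, whose
coefficients are all together algebraically independent over `k`. Let `X₀` be the intersection of
`V` with the hypersurfaces `F_a = 0`.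

Let `W = {Ψ = 0}` and `Y = {Φ = 0}` be projective varieties over `K`, with a morphism `B : W → X₀`
and a surjective morphism `G : W → Y` with fibres of at most `r` points. (The morphisms are given by
forms of the same positive degree over `K` without common zeros on `W`, so they are finite. For
example `W` can be a closed subvariety of `X₀` or of a finite cover of `X₀`, and `Y` its image in a
projective space under a finite morphism; `Y` has no morphism to `X₀` in general.)

If `2 m + 1 + r ≤ ∑ (d_a + 1)` then:

* `Y` has only finitely many points over each field generated over `k'` by finitely many elements of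
  `K`, and hence over each finitely generated field (so `Y` and its closed subvarieties are
  arithmetically hyperbolic);
* for each smooth projective curve over `K`, the degrees of the morphisms from the curve to `Y` are
  bounded (so `Y` and its closed subvarieties are groupless, since a nonconstant morphism from an
  abelian variety is nonconstant on some smooth projective curve that is mapped to the abelian
  variety, and the multiplications by the natural numbers give morphisms of unbounded degree from
  this curve).

The definitions are in `Pool/Agent/Y221/FQ/Defs.lean` (`Mor`, `Onto`, `FibresLe`),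
`Pool/Agent/W603/CX/Groupless.lean` (`BoundedOnCurves`), `Pool/Agent/W602/GT/SpDefs.lean` (`Cone`),
`Pool/Agent/TH145/MG/Dim.lean` (`DimLE`) and `Pool/Agent/Q58/FI/Eqs.lean` (`eqs V F`, the equations
of `V` together with the forms `F_a`).
-/

set_option autoImplicit false

namespace Pool.Agent.Results.MP_c7af3c_ag.FiniteImages

open MvPolynomial LinearAlgebra.Projectivization
open Pool.Agent.TH145.MG (DimLE)
open Pool.Agent.W602.GT (IsForm Cone)
open Pool.Agent.W603.CX (BoundedOnCurves)
open Pool.Agent.Y221.FQ (Mor Onto FibresLe)
open Pool.Agent.Q58.FI (eqs)

theorem result {k K : Type} [Field k] [Field K] [IsAlgClosed K] [CharZero K] [Algebra k K]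
    {n m r l M : ℕ}
    -- a closed subset of projective space, of dimension at most `m`
    (V : Set (MvPolynomial (Fin (n + 1)) (algebraicClosure k K)))
    (hVh : ∀ f ∈ V, ∃ e, f.IsHomogeneous e) (hV : DimLE (algebraicClosure k K) V m)
    -- forms of degrees `d a`, whose coefficients are algebraically independent over `k`
    {A : Type} [Fintype A] (d : A → ℕ) (hd : 2 * m + 1 + r ≤ ∑ a, (d a + 1))
    (F : A → MvPolynomial (Fin (n + 1)) K) (hF : ∀ a, (F a).IsHomogeneous (d a))
    (hgen : AlgebraicIndependent k
      fun p : (a : A) × {I : Fin (n + 1) →₀ ℕ // I.degree = d a} => (F p.1).coeff p.2.1)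
    -- projective varieties `W = {Ψ = 0}` and `Y = {Φ = 0}`
    {κ μ : Type} (Ψ : κ → MvPolynomial (Fin (l + 1)) K) (hΨ : ∀ e, IsForm (Ψ e))
    (Φ : μ → MvPolynomial (Fin (M + 1)) K)
    -- a morphism from `W` to the intersection
    (B : Fin (n + 1) → MvPolynomial (Fin (l + 1)) K) (hB : Mor Ψ (eqs V F) B)
    -- a surjective morphism from `W` to `Y`, with fibres of at most `r` points
    (G : Fin (M + 1) → MvPolynomial (Fin (l + 1)) K) (hG : Mor Ψ Φ G)
    (hon : Onto Ψ Φ G) (hfib : FibresLe Ψ G r) :
    -- the points over the fields generated by finite sets over the algebraic closure of `k`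
    (∀ T : Finset K, {p : ℙ K (Fin (M + 1) → K) | ∃ q : Fin (M + 1) → K, q ∈ Cone Φ ∧
      (∀ j, q j ∈ IntermediateField.adjoin (algebraicClosure k K) (T : Set K)) ∧
      ∃ hq : q ≠ 0, p = Projectivization.mk K q hq}.Finite) ∧
    -- the curves
    BoundedOnCurves Φ :=
  ⟨fun T => Pool.Agent.Q58.FI.finite_im hVh hV hd hF hgen hΨ hB hG hon hfib T,
    Pool.Agent.Q58.FI.bounded_im hVh hV hd hF hgen hΨ hB hG hon hfib⟩

end Pool.Agent.Results.MP_c7af3c_ag.FiniteImages
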