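import Pool.Agent.Q1.BE.Pers

set_option autoImplicit false

/-!
# Finiteness of points of bounded degree persists over larger fields, for families

Let `k` be an algebraically closed field of characteristic zero and `X` a closed subset of the
projective `n`-space over `k`.  If Lang's conjecture (groupless if and only if arithmetically
hyperbolic) is true, the finiteness of the sets of points over finitely generated subrings of `k`
implies the finiteness of the sets of points over finitely generated subrings of every algebraically
closed field `L` which contains `k`, as groupless varieties stay groupless over `L`.  We prove this
for families of points given by iterated recurrences, also for points of bounded degree and outside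
of a hypersurface `G = 0`, with a bound which does not depend on anything but numerical data.

Let `n`, `D`, `d`, `s`, `r`, `e` be given.  There is a number `B` such that the following holds for
ALL algebraically closed fields `k` of characteristic zero, for ALL closed sets `X` in projective
`n`-space over `k` given by any set `S` of forms of degree at most `D`, and for all forms `G` over `k`
of degree at most `D`.  Suppose that

* (`degPts`) for each finitely generated field `K` in `k` only finitely many of the points of `X` of
  degree at most `d` over `K` are outside of `G = 0`, or only that
* (`PolyFinite`) this holds for the points in polynomial families over `k`: if `Pol (p(m))` is a monic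
  polynomial of degree `d` and `Num (p(m)) α` is the point whose homogeneous coordinates are values of
  polynomials of degree less than `d` at `α`, where the coefficients `p(m)` of these polynomials are
  polynomials in `m` over `k`, and if for all integers `m` and all roots `α` of `Pol (p(m))` the point
  `Num (p(m)) α` is on `X`, then only finitely many of these points are outside of `G = 0`.

Let `L` be ANY field which contains `k`, and let `x(h)`, `h ∈ H`, for any group `H`, be a family of
coefficients over `L` such that the points `Num (x h) α`, `Pol (x h)(α) = 0`, over the algebraic closure
of `L`, are on `X`, given by iterated recurrences (`IterFam s r e x`): there are invertible matrices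
`X_1(h), ..., X_s(h)` of size `r` over `L` such that, for all `g` in `H`, the entries of
`X_l(g h) X_l(h)⁻¹` are, for all `h`, the values of polynomials over `L` (depending on `g`) of degree at
most `e` in each variable at the entries of `X_i(h)`, `X_i(h)⁻¹`, `i < l`, and the components of `x(h)`
are values of such polynomials at the entries of all these matrices.  Then at most `B` of all these
points are outside of `G = 0`.
-/

namespace Pool.Agent.Results.MP_c7af3c_ag.Persistence

open MvPolynomial Pool.Agent.Q1.BD

theorem result (n D d s r e : ℕ) : ∃ B : ℕ, ∀ (k : Type) [Field k] [CharZero k] [IsAlgClosed k]
    (S : Set (MvPolynomial (Fin (n + 1)) k)) (G : MvPolynomial (Fin (n + 1)) k),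
    (∀ F ∈ S, ∃ e, e ≤ D ∧ F.IsHomogeneous e) → (∃ e, e ≤ D ∧ G.IsHomogeneous e) →
    (∀ T : Finset k, (degPts S G d (Subfield.closure (T : Set k))).Finite) ∨ PolyFinite S G d →
    ∀ (L : Type) [Field L] [Algebra k L] (H : Type) [Group H] (x : H → Jx n d → L),
      IterFam s r e x →
      (∀ h α, (Pol (bar (x h))).eval α = 0 → ∀ F ∈ S, aeval (Num (bar (x h)) α) F = 0) →
      (rootPts G x).encard ≤ (B : ℕ∞) := by
  obtain ⟨B1, h1⟩ := persist n D d s r e
  obtain ⟨B2, h2⟩ := persist_fg n D d s r e
  refine ⟨max B1 B2, fun k _ _ _ S G hS hG h L _ _ H _ x hx hX => ?_⟩
  rcases h with h | h
  · refine (h2 k S G hS hG h L H x hx hX).trans ?_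
    exact_mod_cast le_max_right B1 B2
  · refine (h1 k S G hS hG h L H x hx hX).trans ?_
    exact_mod_cast le_max_left B1 B2

end Pool.Agent.Results.MP_c7af3c_ag.Persistence
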