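import Pool.Agent.Q171.RC.RecF

/-!
# Points given by iterated recurrences over all algebraically closed fields

Let `n`, `D`, `s`, `r`, `e` be given. Then there are numbers `δ` and `B` such that the following holds
for ALL algebraically closed fields `k` of characteristic zero and ALL closed subsets `X` of the
projective `n`-space over `k` which are given by forms of degree at most `D`.

Let `H` be any group and let `x(h)`, `h ∈ H`, be points of `X` over `k` whose homogeneous coordinates
are given by `s` iterated recurrences with matrices of size `r` and polynomials of degree at most `e`
(`IterVec s r e x`: there are invertible matrices `X_1(h), ..., X_s(h)` of size `r` over `k` such that,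
for all `g`, the entries of `X_l(g h) X_l(h)⁻¹` are values of polynomials of degree at most `e`, which
depend only on `g`, at the entries of `X_i(h)`, `X_i(h)⁻¹`, `i < l`, and the coordinates of `x(h)` are
values of such polynomials at all entries; for instance the points with coordinates in finitely
generated groups of units of bounded rank, orbits of linear algebraic groups, values of linear
recurrences or of exponential polynomials). Then all but at most `B` of the points `x(h)` lie on
nonconstant rational curves over `k` of degree at most `δ` on `X`.

In particular, if `X` is groupless (so it contains no rational curve), it contains at most `B` of the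
points `x(h)`, where `B` does not depend on `X`, `k`, `H` and the recurrences.
-/

set_option autoImplicit false

namespace Pool.Agent.Results.MP_c7af3c_ag.PointsOverAllFields

open MvPolynomial Pool.Agent.Q171.RC Pool.Agent.Y377.ST

/-- The vector `x` lies on a nonconstant rational curve of degree at most `d` on the projective variety
of `S`: there are polynomials `p_0, ..., p_n` in one variable of degree at most `d`, such that the
point `p(t)` is not the same for all `t`, with `F(p_0, ..., p_n) = 0` for all `F ∈ S` and
`p(0) = x`. -/
def OnRationalCurve {L : Type} [Field L] {n : ℕ} (S : Set (MvPolynomial (Fin (n + 1)) L)) (d : ℕ)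
    (x : Fin (n + 1) → L) : Prop :=
  ∃ p : Fin (n + 1) → Polynomial L,
    (∃ s t i j, (p i).eval s * (p j).eval t ≠ (p j).eval s * (p i).eval t) ∧
    (∀ j, (p j).natDegree ≤ d) ∧ (∀ F ∈ S, aeval p F = 0) ∧ ∀ j, (p j).eval 0 = x j

theorem result (n D s r e : ℕ) : ∃ δ B : ℕ, ∀ (k : Type) [Field k] [CharZero k] [IsAlgClosed k]
    (S : Set (MvPolynomial (Fin (n + 1)) k)), (∀ F ∈ S, ∃ e, e ≤ D ∧ F.IsHomogeneous e) →
      ∀ (H : Type) [Group H] (x : H → Fin (n + 1) → k), IterVec s r e x →
        (∀ h, ∀ F ∈ S, eval (x h) F = 0) →
        {P | ∃ (h : H) (h0 : x h ≠ 0), ¬ OnRationalCurve S δ (x h) ∧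
          P = Projectivization.mk k (x h) h0}.encard ≤ (B : ℕ∞) :=
  rec_field n D s r e

end Pool.Agent.Results.MP_c7af3c_ag.PointsOverAllFields
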