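import Pool.Agent.Q171.RC.SeqF

/-!
# Sequences of points given by recurrences with polynomial coefficients, and rational curves

Let `k` be any algebraically closed field of characteristic zero. We consider sequences
`x 0, x 1, ...` of points of the projective `n`-space over `k` whose `n + 1` sequences of homogeneous
coordinates satisfy nontrivial linear recurrences `∑ P_i (t m) x (m + i) j = 0`, `i ≤ r`, where the
`P_i` are polynomials over `k` of degree at most `e` and the `t m` are different elements of `k` with
`t (m + 1) = α t m + β` (`DSeq`); for instance `t m = m` (P-recursive sequences) or `t m = q ^ m`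
(`q`-recursive sequences).

For all `n`, `D`, `r`, `e` there is ONE number `d` such that for ALL algebraically closed fields `k` of
characteristic zero, ALL closed subsets `X` of the projective `n`-space over `k` given by forms of
degree at most `D`, and all such sequences of points of `X`: among ANY `d + 1` consecutive points
`x s, ..., x (s + d)` two are equal, or one of them lies on a nonconstant rational curve of degree at
most `d` on `X` over `k`.

So, if `X` contains no rational curve of degree at most `d`, in particular if `X` is groupless, all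
these sequences repeat a point after at most `d` steps, and otherwise a sequence of different points
hits the rational curves of degree at most `d` on `X` again and again, with gaps of length at most
`d`; `d` does not depend on `X`, `k` and the sequence.
-/

set_option autoImplicit false

namespace Pool.Agent.Results.MP_c7af3c_ag.RunsThroughRationalCurves

open MvPolynomial Pool.Agent.Q171.RC

/-- The homogeneous coordinates of the points `x m`, `s ≤ m ≤ s + B`, over the field `L` satisfy
nontrivial linear difference equations `∑ P_i (t m) x (m + i) j = 0` of order at most `r`; the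
coefficients are values of polynomials over `L` of degree at most `e` at different points `t m` with
`t (m + 1) = α t m + β`. -/
structure RecursiveRun {L : Type} [Field L] {n : ℕ} (r e s B : ℕ) (x : ℕ → Fin (n + 1) → L) :
    Prop where
  ne : ∀ m, s ≤ m → m ≤ s + B → x m ≠ 0
  eqn : ∃ (t : ℕ → L) (α β : L), (∀ m, t (m + 1) = α * t m + β) ∧
    (∀ i j, s ≤ i → i < j → j ≤ s + B → t i ≠ t j) ∧ ∀ j, ∃ P : ℕ → Polynomial L,
      (∃ i ≤ r, P i ≠ 0) ∧ (∀ i, (P i).natDegree ≤ e) ∧
        ∀ m, s ≤ m → m ≤ s + B → ∑ i ∈ Finset.range (r + 1), (P i).eval (t m) * x (m + i) j = 0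

/-- The vector `x` lies on a nonconstant rational curve of degree at most `d` on the projective variety
of `S`: there are polynomials `p_0, ..., p_n` in one variable of degree at most `d`, such that the
point `p(t)` is not the same for all `t`, with `F(p_0, ..., p_n) = 0` for all `F ∈ S` and
`p(0) = x`. -/
def OnRationalCurve {L : Type} [Field L] {n : ℕ} (S : Set (MvPolynomial (Fin (n + 1)) L)) (d : ℕ)
    (x : Fin (n + 1) → L) : Prop :=
  ∃ p : Fin (n + 1) → Polynomial L,
    (∃ s t i j, (p i).eval s * (p j).eval t ≠ (p j).eval s * (p i).eval t) ∧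
    (∀ j, (p j).natDegree ≤ d) ∧ (∀ F ∈ S, aeval p F = 0) ∧ ∀ j, (p j).eval 0 = x j

theorem result (n D r e : ℕ) : ∃ d : ℕ, ∀ (k : Type) [Field k] [CharZero k] [IsAlgClosed k]
    (S : Set (MvPolynomial (Fin (n + 1)) k)), (∀ F ∈ S, ∃ e, e ≤ D ∧ F.IsHomogeneous e) →
      ∀ (s : ℕ) (x : ℕ → Fin (n + 1) → k), RecursiveRun r e s d x →
        (∀ m, s ≤ m → m ≤ s + d → ∀ F ∈ S, eval (x m) F = 0) →
        (∃ i j, s ≤ i ∧ i < j ∧ j ≤ s + d ∧ ∀ u v, x i u * x j v = x i v * x j u) ∨
          ∃ m, s ≤ m ∧ m ≤ s + d ∧ OnRationalCurve S d (x m) := by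
  obtain ⟨d, hd⟩ := runs_field n D r e
  refine ⟨d, fun k _ _ _ S hS s x hx hX => ?_⟩
  obtain ⟨t, α, β, h1, h2, h3⟩ := hx.eqn
  have hrun : Pool.Agent.Q309.DU.DSeq r e d fun m => x (s + m) := by
    refine ⟨fun m hm => hx.ne (s + m) (by omega) (by omega), fun m => t (s + m), α, β,
      fun m => h1 (s + m), fun i j hij hj => h2 (s + i) (s + j) (by omega) (by omega) (by omega),
      fun j => ?_⟩
    obtain ⟨P, hP1, hP2, hP3⟩ := h3 j
    refine ⟨P, hP1, hP2, fun m hm => ?_⟩
    have h4 := hP3 (s + m) (by omega) (by omega)
    rw [← h4]
    refine Finset.sum_congr rfl fun i _ => ?_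
    rw [← Nat.add_assoc]
  rcases hd k S hS _ hrun (fun m hm => hX (s + m) (by omega) (by omega)) with
    ⟨i, j, hij, hj, h4⟩ | ⟨m, hm, p, h4, h5, h6, h7⟩
  · exact Or.inl ⟨s + i, s + j, by omega, by omega, by omega, h4⟩
  · exact Or.inr ⟨s + m, by omega, by omega, p, h4, h5, h6, h7⟩

end Pool.Agent.Results.MP_c7af3c_ag.RunsThroughRationalCurves
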